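import Pool.Agent.helper21.UB.Spec

set_option autoImplicit false

open Quaternion

namespace Pool.Agent.helper21.UB

theorem REC_key (hHUR : HUR_stmt) (K : Type) [Field K] [NumberField K] (φ : K →+* ℍ[ℚ])
    (hφ : ∀ β : K, φ β ∈ Hz ↔ IsIntegral ℤ β) (B B' : Ideal (NumberField.RingOfIntegers K))
    (c : NumberField.RingOfIntegers K) (hB' : Ideal.span {c} = B * B')
    (b' : NumberField.RingOfIntegers K) (hb' : b' ∈ B') (y : ℍ[ℚ]) (hy : y ∈ MI φ B) :
    ∃ o ∈ Hz, y * φ (b' : K) = o * φ (c : K) := by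
  obtain ⟨h0, h1, hadd, hneg, hmul, _, _⟩ := hHUR
  unfold MI at hy
  induction hy using AddSubgroup.closure_induction with
  | mem x hx =>
    obtain ⟨o, ho, b, hb, rfl⟩ := hx
    have h : b * b' ∈ Ideal.span {c} := by
      rw [hB']; exact Ideal.mul_mem_mul hb hb'
    obtain ⟨r, hr⟩ := Ideal.mem_span_singleton'.mp h
    refine ⟨o * φ (r : K), hmul _ ho _ ((hφ _).mpr r.isIntegral_coe), ?_⟩
    have h2 : (b : K) * (b' : K) = (r : K) * (c : K) := by
      have := congrArg (fun z : NumberField.RingOfIntegers K => (z : K)) hr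
      simpa using this.symm
    have h3 : φ (b : K) * φ (b' : K) = φ (r : K) * φ (c : K) := by
      rw [← φ.map_mul, h2, φ.map_mul]
    rw [mul_assoc, mul_assoc, h3]
  | zero => exact ⟨0, h0, by simp⟩
  | add x y _ _ hx hy =>
    obtain ⟨o, ho, h⟩ := hx
    obtain ⟨o', ho', h'⟩ := hy
    exact ⟨o + o', hadd _ ho _ ho', by rw [add_mul, add_mul, h, h']⟩
  | neg x _ hx =>
    obtain ⟨o, ho, h⟩ := hx
    exact ⟨-o, hneg _ ho, by rw [neg_mul, neg_mul, h]⟩

/-- **REC** -/
theorem REC (hHUR : HUR_stmt) : REC_stmt := by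
  intro K _ _ φ hφ A B hB hMI β hβ
  obtain ⟨c, hcB, hc0⟩ := Submodule.exists_mem_ne_zero_of_ne_bot hB
  obtain ⟨B', hB'⟩ : B ∣ Ideal.span {c} := Ideal.dvd_span_singleton.mpr hcB
  have hspan : Ideal.span {c} ≠ ⊥ := by
    rw [Ne, Ideal.span_singleton_eq_bot]; exact hc0
  have hB'0 : B' ≠ ⊥ := by
    rintro rfl
    apply hspan
    rw [hB']
    simp
  have hβA : φ (β : K) ∈ MI φ A :=
    AddSubgroup.subset_closure ⟨1, hHUR.2.1, β, hβ, by simp⟩
  rw [hMI] at hβA
  have hcK : (c : K) ≠ 0 := by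
    intro h
    apply hc0
    exact_mod_cast h
  have hle : Ideal.span {β} * B' ≤ B * B' := by
    rw [← hB']
    rw [Ideal.mul_le]
    intro x hx b' hb'
    obtain ⟨r, rfl⟩ := Ideal.mem_span_singleton'.mp hx
    obtain ⟨o, ho, h⟩ := REC_key hHUR K φ hφ B B' c hB' b' hb' _ hβA
    have hφc : φ (c : K) ≠ 0 := by
      rw [Ne, map_eq_zero]; exact hcK
    have h3 : φ ((β : K) * (b' : K) / (c : K)) = o := by
      rw [map_div₀, map_mul, h, mul_div_assoc, div_self hφc, mul_one]
    have hint : IsIntegral ℤ ((β : K) * (b' : K) / (c : K)) := by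
      rw [← hφ, h3]; exact ho
    obtain ⟨s, hs⟩ : ∃ s : NumberField.RingOfIntegers K, (s : K) = (β : K) * (b' : K) / (c : K) :=
      ⟨⟨_, hint⟩, rfl⟩
    have h4 : β * b' = s * c := by
      have : ((β * b' : NumberField.RingOfIntegers K) : K) = ((s * c : NumberField.RingOfIntegers K) : K) := by
        have h5 : (β : K) * (b' : K) = (s : K) * (c : K) :=
          (div_mul_cancel₀ _ hcK).symm.trans (congrArg (fun z => z * (c : K)) hs.symm)
        exact h5
      exact NumberField.RingOfIntegers.coe_injective this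
    rw [mul_assoc, h4]
    exact Ideal.mul_mem_left _ _ (Ideal.mul_mem_left _ _ (Ideal.mem_span_singleton_self c))
  have hdvd : B * B' ∣ Ideal.span {β} * B' := Ideal.dvd_iff_le.mpr hle
  have hdvd2 : B ∣ Ideal.span {β} := (mul_dvd_mul_iff_right hB'0).mp hdvd
  exact Ideal.dvd_span_singleton.mp hdvd2

end Pool.Agent.helper21.UB
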